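import Pool.Agent.TH623.LC.Defs

set_option autoImplicit false

open MeasureTheory TopologicalSpace Set
open scoped Manifold ContDiff Topology NNReal

namespace Pool.Agent.TH623.LC

variable {R : Type} [NormedAddCommGroup R] [NormedSpace ℝ R]

/-- the cone generated by the Dirac currents -/
abbrev diracCone (U : Opens (Mfd R)) : Submodule ℝ≥0 (Form R U 2 → ℝ) :=
  Submodule.span ℝ≥0 {f : Form R U 2 → ℝ | ∃ y ∈ U, ∃ v : ℂ × ℂ, f = dirac y v}

/-- Integrals of Dirac currents belong to the closed cone generated by the Dirac currents. -/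
theorem integral_mem_closure [FiniteDimensional ℝ R] [MeasurableSpace R] [BorelSpace R]
    {U : Opens (Mfd R)} (μ : Measure (Mfd R))
    [IsFiniteMeasureOnCompacts μ] (v : ℂ × ℂ) :
    (fun α : Form R U 2 => ∫ y, dirac y v α ∂μ) ∈ closure (diracCone U : Set (Form R U 2 → ℝ)) := by
  classical
  rw [mem_closure_iff]
  intro o ho hmem
  obtain ⟨I, u, hu, hsub⟩ := isOpen_pi_iff.1 ho _ hmem
  -- restriction to finitely many forms
  let ρ : (Form R U 2 → ℝ) →ₗ[ℝ≥0] (I → ℝ) :=
    { toFun := fun f a => f a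
      map_add' := fun _ _ => rfl
      map_smul' := fun _ _ => rfl }
  let Cl : Submodule ℝ≥0 (I → ℝ) := ((diracCone U).map ρ).topologicalClosure
  have hClc : IsClosed (Cl : Set (I → ℝ)) := Submodule.isClosed_topologicalClosure _
  have hClconv : Convex ℝ (Cl : Set (I → ℝ)) := by
    intro x hx y hy a b ha hb _
    have h1 := Cl.smul_mem (⟨a, ha⟩ : ℝ≥0) hx
    have h2 := Cl.smul_mem (⟨b, hb⟩ : ℝ≥0) hy
    exact Cl.add_mem h1 h2
  let F : Mfd R → (I → ℝ) := fun y a => dirac y v (a : Form R U 2)
  have hFcont : Continuous F := by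
    refine continuous_pi fun a => ?_
    have h1 : Continuous (fun y => (a : Form R U 2) y) := (a : Form R U 2).continuous
    exact (ContinuousAlternatingMap.apply ℝ (Mfd R) ℝ _).continuous.comp h1
  set K : Set (Mfd R) := ⋃ a ∈ I, tsupport (a : Form R U 2) with hK
  have hKc : IsCompact K := I.finite_toSet.isCompact_biUnion fun a _ => a.hasCompactSupport
  have hKU : K ⊆ U := iUnion₂_subset fun a _ => a.tsupport_subset
  have hF0 : ∀ y, y ∉ K → F y = 0 := by
    intro y hy
    funext a
    have h1 : (a : Form R U 2) y = 0 := by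
      apply image_eq_zero_of_notMem_tsupport
      intro h
      exact hy (mem_iUnion₂.2 ⟨a, a.2, h⟩)
    show dirac y v (a : Form R U 2) = 0
    unfold dirac
    rw [h1]
    rfl
  have hFint : IntegrableOn F K μ := hFcont.continuousOn.integrableOn_compact hKc
  have hFmem : ∀ y ∈ K, F y ∈ (Cl : Set (I → ℝ)) := by
    intro y hy
    apply Submodule.le_topologicalClosure
    exact ⟨dirac y v, Submodule.subset_span ⟨y, hKU hy, v, rfl⟩, rfl⟩
  have hint : ∫ y, F y ∂μ ∈ (Cl : Set (I → ℝ)) := by
    have h1 : ∫ y, F y ∂μ = ∫ y in K, F y ∂μ := by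
      rw [← integral_indicator hKc.measurableSet]
      congr 1
      funext y
      by_cases hy : y ∈ K
      · rw [indicator_of_mem hy]
      · rw [indicator_of_notMem hy, hF0 y hy]
    rw [h1]
    by_cases h0 : μ K = 0
    · rw [Measure.restrict_eq_zero.2 h0, integral_zero_measure]
      exact Cl.zero_mem
    · have hav := hClconv.set_average_mem hClc h0 hKc.measure_lt_top.ne
        ((ae_restrict_iff' hKc.measurableSet).2 (Filter.Eventually.of_forall hFmem)) hFint
      have h2 : ∫ y in K, F y ∂μ = (⟨μ.real K, measureReal_nonneg⟩ : ℝ≥0) • ⨍ y in K, F y ∂μ := by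
        rw [setAverage_eq]
        show _ = (μ.real K) • ((μ.real K)⁻¹ • ∫ y in K, F y ∂μ)
        rw [smul_smul, mul_inv_cancel₀, one_smul]
        exact (ENNReal.toReal_pos h0 hKc.measure_lt_top.ne).ne'
      rw [h2]
      exact Cl.smul_mem _ hav
  have hint' : (fun a : I => ∫ y, dirac y v (a : Form R U 2) ∂μ) ∈ (Cl : Set (I → ℝ)) := by
    have hFint' : Integrable F μ := by
      rw [← integrableOn_univ]
      exact hFint.of_forall_sdiff_eq_zero MeasurableSet.univ (fun x hx => hF0 x hx.2)
    have h1 : (fun a : I => ∫ y, dirac y v (a : Form R U 2) ∂μ) = ∫ y, F y ∂μ := by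
      funext a
      have h2 := eval_integral (μ := μ) (f := F) (fun i => hFint'.eval i) a
      exact h2.symm
    rw [h1]
    exact hint
  -- the open box
  have hbox : IsOpen {x : I → ℝ | ∀ a : I, x a ∈ u a} := by
    have : {x : I → ℝ | ∀ a : I, x a ∈ u a} = Set.pi univ fun a : I => u a := by
      ext x; simp
    rw [this]
    exact isOpen_set_pi finite_univ fun a _ => (hu a a.2).1
  have hcl : (fun a : I => ∫ y, dirac y v (a : Form R U 2) ∂μ) ∈
      closure ((diracCone U).map ρ : Set (I → ℝ)) := hint'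
  obtain ⟨x, hx1, hx2⟩ := mem_closure_iff.1 hcl _ hbox (fun a => (hu a a.2).2)
  obtain ⟨f, hf, rfl⟩ := hx2
  exact ⟨f, hsub fun a ha => hx1 ⟨a, ha⟩, hf⟩

end Pool.Agent.TH623.LC
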