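import Mathlib

/-!
# Leafwise complex cycles and pseudoholomorphic curves: definitions

The manifold is `M = ℂ² × R` with `R` a finite-dimensional real vector space, the leaves of the
foliation are the `ℂ² × {r}`, and `J` is the multiplication by `i` on the leaves.
-/

set_option autoImplicit false

open MeasureTheory TopologicalSpace Set
open scoped Manifold ContDiff Topology NNReal

namespace Pool.Agent.TH623.LC

/-- The manifold `M = ℂ² × R`. It is foliated by the leaves `ℂ² × {r}`, `r ∈ R`. -/
abbrev Mfd (R : Type) : Type := (ℂ × ℂ) × R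

variable (R : Type) [NormedAddCommGroup R] [NormedSpace ℝ R]

/-- `Ω^p_c(U)`: smooth differential `p`-forms on `M` with compact support contained in the open
set `U`, with the usual (LF) topology of Mathlib. -/
abbrev Form (U : Opens (Mfd R)) (p : ℕ) : Type :=
  TestFunction U (Mfd R [⋀^Fin p]→L[ℝ] ℝ) ⊤

/-- A `p`-current on `U` is a continuous linear functional on `Ω^p_c(U)`. -/
abbrev Current (U : Opens (Mfd R)) (p : ℕ) : Type := Form R U p →L[ℝ] ℝ

variable {R}

/-- A `1`-form acts on `2`-forms as its exterior derivative: `c` is a cycle if `c (dβ) = 0` for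
all `β ∈ Ω^1_c(U)`. -/
def IsCycle {U : Opens (Mfd R)} (c : Current R U 2) : Prop :=
  ∀ (β : Form R U 1) (α : Form R U 2), (∀ y, α y = extDeriv (fun z => β z) y) → c α = 0

/-- the tangent vector `(v, 0)` of the leaf through any point, `v ∈ ℂ²` -/
def tang (R : Type) [NormedAddCommGroup R] (v : ℂ × ℂ) : Mfd R := (v, 0)

/-- The value `α_y (v ∧ J v)` of the Dirac current of `v ∧ J v`, where `v ∈ ℂ²` is a vector
tangent to the leaf through `y`. -/
noncomputable def dirac {U : Opens (Mfd R)} (y : Mfd R) (v : ℂ × ℂ) (α : Form R U 2) : ℝ :=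
  α y ![tang R v, tang R (Complex.I • v)]

/-- `c` is a `C`-current: it belongs to the closed convex cone generated by the Dirac currents
of the bivectors `v ∧ J v` tangent to the leaves (closure for the topology of pointwise
convergence on forms). -/
def IsCCurrent {U : Opens (Mfd R)} (c : Current R U 2) : Prop :=
  (fun α => c α) ∈ closure
    (Submodule.span ℝ≥0 {f : Form R U 2 → ℝ | ∃ y ∈ U, ∃ v : ℂ × ℂ, f = dirac y v} :
      Set (Form R U 2 → ℝ))

/-- a connected Riemann surface -/
structure RiemannSurface where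
  /-- the underlying set -/
  X : Type
  [top : TopologicalSpace X]
  [t2 : T2Space X]
  [conn : ConnectedSpace X]
  [sc : SecondCountableTopology X]
  [charted : ChartedSpace ℂ X]
  [mfd : IsManifold 𝓘(ℂ, ℂ) ω X]

attribute [instance] RiemannSurface.top RiemannSurface.t2 RiemannSurface.conn RiemannSurface.sc
  RiemannSurface.charted RiemannSurface.mfd

/-- the map `h : X → ℂ²`, followed by the inclusion of the leaf `ℂ² × {r}` -/
def toLeaf {X : Type} (h : X → ℂ × ℂ) (r : R) (p : X) : Mfd R := (h p, r)

/-- The integral of `u^* α` over the Riemann surface, `u = toLeaf h r`, computed with the charts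
`chartAt ℂ p` and the subordinate partition of unity `χ`. -/
noncomputable def integral {U : Opens (Mfd R)} {X : Type} [TopologicalSpace X]
    [ChartedSpace ℂ X] (χ : PartitionOfUnity X X univ) (h : X → ℂ × ℂ) (r : R)
    (α : Form R U 2) : ℝ :=
  ∑ᶠ p : X, ∫ z in (chartAt ℂ p).target, χ p ((chartAt ℂ p).symm z) *
    α (toLeaf h r ((chartAt ℂ p).symm z))
      ![tang R (fderiv ℂ (h ∘ (chartAt ℂ p).symm) z 1),
        tang R (fderiv ℂ (h ∘ (chartAt ℂ p).symm) z Complex.I)]

/-- The set `P_U` of the pseudoholomorphic curves in `U`, viewed as currents: the currents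
`α ↦ ∫_Σ u^* α`, where `Σ` is a connected Riemann surface and `u : Σ → U` is a proper, somewhere
injective map with image in one leaf which is holomorphic as a map to that leaf. -/
def Curves (U : Opens (Mfd R)) : Set (Current R U 2) :=
  {c | ∃ (S : RiemannSurface) (h : S.X → ℂ × ℂ) (r : R),
    MDifferentiable 𝓘(ℂ, ℂ) 𝓘(ℂ, ℂ × ℂ) h ∧
    (∀ p, toLeaf h r p ∈ U) ∧
    (∀ K : Set (Mfd R), IsCompact K → K ⊆ U → IsCompact (toLeaf h r ⁻¹' K)) ∧
    (∃ p, mfderiv 𝓘(ℂ, ℂ) 𝓘(ℂ, ℂ × ℂ) h p ≠ 0 ∧ ∀ q, h q = h p → q = p) ∧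
    ∃ χ : PartitionOfUnity S.X S.X univ, χ.IsSubordinate (fun p => (chartAt ℂ p).source) ∧
      ∀ α : Form R U 2, c α = integral χ h r α}

/-- the inclusion of `Ω^p_c(U)` in `Ω^p_c(M)` -/
noncomputable def incl {U : Opens (Mfd R)} {p : ℕ} (α : Form R U p) : Form R (⊤ : Opens (Mfd R)) p :=
  ⟨α, α.contDiff, α.hasCompactSupport, subset_univ _⟩

/-- The current `c` on `M` is on `U` a non-negative superposition of pseudoholomorphic curves: there
is a measure `ν` on `P_U` (for some σ-algebra, for which all evaluations are integrable) with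
`c(α) = ∫ c'(α) dν(c')` for all `α ∈ Ω^2_c(U)`. -/
def IsSuperposition (c : Current R (⊤ : Opens (Mfd R)) 2) (U : Opens (Mfd R)) : Prop :=
  ∃ (_ : MeasurableSpace (Curves U)) (ν : Measure (Curves U)), ∀ α : Form R U 2,
    Integrable (fun c' : Curves U => c'.1 α) ν ∧ c (incl α) = ∫ c' : Curves U, c'.1 α ∂ν

end Pool.Agent.TH623.LC
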