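import Pool.Agent.TH623.LC.Surf

set_option autoImplicit false

open MeasureTheory TopologicalSpace Set Filter
open scoped Manifold ContDiff Topology NNReal

namespace Pool.Agent.TH623.LC

variable {X : Type} [TopologicalSpace X] [ChartedSpace ℂ X] [IsManifold 𝓘(ℂ, ℂ) ω X]
  [ConnectedSpace X]

/-- A curve which is contained near one point in a complex line contains the whole part of that
line in a ball to which the map is proper. -/
theorem line_covered {h : X → ℂ × ℂ} (hh : MDifferentiable 𝓘(ℂ, ℂ) 𝓘(ℂ, ℂ × ℂ) h)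
    (hnc : ∀ b, ¬ ∀ x, h x = b) {ρ : ℝ}
    (hprop : ∀ K ⊆ Metric.ball (0 : ℂ × ℂ) ρ, IsCompact K → IsCompact (h ⁻¹' K))
    (l t : ℂ × ℂ →L[ℂ] ℂ) (v : ℂ × ℂ) (hlv : l v = 0) (htv : t v = 1)
    (hlt : ∀ x, l x = 0 → x = t x • v) {q0 : X} (hq0 : h q0 ∈ Metric.ball (0 : ℂ × ℂ) ρ)
    (hev : ∀ᶠ x in 𝓝 q0, l (h x) = l (h q0)) (w : ℂ)
    (hw : h q0 + w • v ∈ Metric.ball (0 : ℂ × ℂ) ρ) : ∃ q, h q = h q0 + w • v := by
  have hcont : Continuous h := hh.continuous
  set b := l (h q0) with hb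
  set Z : Set X := {q | ∀ᶠ x in 𝓝 q, l (h x) = b} with hZ
  have hZo : IsOpen Z := isOpen_setOfPred_eventually_nhds
  have hlh : MDifferentiable 𝓘(ℂ, ℂ) 𝓘(ℂ, ℂ) (fun x => l (h x)) :=
    l.differentiable.mdifferentiable.comp hh
  have hth : MDifferentiable 𝓘(ℂ, ℂ) 𝓘(ℂ, ℂ) (fun x => t (h x)) :=
    t.differentiable.mdifferentiable.comp hh
  set x : ℂ → ℂ × ℂ := fun w => h q0 + w • v with hx
  have hxc : Continuous x := by rw [hx]; fun_prop
  set W : Set ℂ := x ⁻¹' Metric.ball (0 : ℂ × ℂ) ρ with hW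
  have hWo : IsOpen W := Metric.isOpen_ball.preimage hxc
  have hWconv : Convex ℝ W := by
    intro a ha a' ha' s s' hs hs' hss
    have h1 : x (s • a + s' • a') = s • x a + s' • x a' := by
      simp only [hx]
      have h2 : h q0 = s • h q0 + s' • h q0 := by rw [← add_smul, hss, one_smul]
      conv_lhs => rw [h2]
      simp only [smul_add, add_smul, smul_assoc]
      abel
    show x (s • a + s' • a') ∈ Metric.ball (0 : ℂ × ℂ) ρ
    rw [h1]
    exact (convex_ball (0 : ℂ × ℂ) ρ) ha ha' hs hs' hss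
  set A : Set ℂ := {w | w ∈ W ∧ ∃ q ∈ Z, h q = x w} with hA
  have hdet : ∀ q, l (h q) = b → h q = x (t (h q) - t (h q0)) := by
    intro q hq
    have h1 : l (h q - h q0) = 0 := by rw [map_sub, hq, hb, sub_self]
    have h2 := hlt _ h1
    rw [map_sub] at h2
    simp only [hx]
    rw [← h2]; abel
  have hAo : IsOpen A := by
    rw [isOpen_iff_mem_nhds]
    rintro w ⟨hwW, q, hqZ, hqw⟩
    have hqZ' : ∀ᶠ x in 𝓝 q, l (h x) = b := hqZ
    rcases open_mapping hth q with hcst | hopen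
    · exfalso
      apply hnc (h q)
      refine const_of_eventually hh (h q) (q := q) ?_
      filter_upwards [hqZ', hcst] with y hy1 hy2
      rw [hdet y hy1, hdet q hqZ'.self_of_nhds, hy2]
    · have hS : {y | y ∈ Z ∧ h y ∈ Metric.ball (0 : ℂ × ℂ) ρ} ∈ 𝓝 q := by
        refine Filter.inter_mem (hZo.mem_nhds hqZ) ?_
        have h1 : h q ∈ Metric.ball (0 : ℂ × ℂ) ρ := by rw [hqw]; exact hwW
        exact hcont.continuousAt.preimage_mem_nhds (Metric.isOpen_ball.mem_nhds h1)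
      have h1 := hopen (image_mem_map hS)
      have h2 : t (h q) = t (h q0) + w := by
        rw [hqw]; simp only [hx]; rw [map_add, map_smul, htv, smul_eq_mul, mul_one]
      have h3 : Tendsto (fun w' => t (h q0) + w') (𝓝 w) (𝓝 (t (h q))) := by
        rw [h2]; exact (continuous_const.add continuous_id).tendsto w
      filter_upwards [h3 h1] with w' hw'
      obtain ⟨y, ⟨hyZ, hyB⟩, hy⟩ := hw'
      have hyZ' : ∀ᶠ x in 𝓝 y, l (h x) = b := hyZ
      have h4 : h y = x w' := by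
        rw [hdet y hyZ'.self_of_nhds]
        congr 1
        have : t (h y) = t (h q0) + w' := hy
        rw [this]; ring
      exact ⟨by show x w' ∈ Metric.ball (0 : ℂ × ℂ) ρ; rw [← h4]; exact hyB, y, hyZ, h4⟩
  have hAc : closure A ∩ W ⊆ A := by
    rintro w ⟨hwA, hwW⟩
    refine ⟨hwW, ?_⟩
    obtain ⟨δ, hδ, hδB⟩ := Metric.nhds_basis_closedBall.mem_iff.1
      (Metric.isOpen_ball.mem_nhds (show x w ∈ Metric.ball (0 : ℂ × ℂ) ρ from hwW))
    set N : Set (ℂ × ℂ) := Metric.closedBall (x w) δ with hN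
    have hNc : IsCompact (h ⁻¹' N) := hprop N hδB (isCompact_closedBall _ _)
    have hZc : IsCompact (closure Z ∩ h ⁻¹' N) := hNc.inter_left isClosed_closure
    have himg : IsClosed (h '' (closure Z ∩ h ⁻¹' N)) := (hZc.image hcont).isClosed
    have hO : IsOpen (x ⁻¹' Metric.ball (x w) δ) := Metric.isOpen_ball.preimage hxc
    have hwO : w ∈ x ⁻¹' Metric.ball (x w) δ := Metric.mem_ball_self hδ
    have h1 : w ∈ closure (x ⁻¹' Metric.ball (x w) δ ∩ A) := hO.inter_closure ⟨hwO, hwA⟩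
    have h2 : x w ∈ closure (h '' (closure Z ∩ h ⁻¹' N)) := by
      refine map_mem_closure hxc h1 ?_
      rintro w' ⟨hw'O, hw'W, q, hqZ, hqw'⟩
      refine ⟨q, ⟨subset_closure hqZ, ?_⟩, hqw'⟩
      show h q ∈ N
      rw [hqw']
      exact Metric.ball_subset_closedBall hw'O
    rw [himg.closure_eq] at h2
    obtain ⟨q, ⟨hqZ, -⟩, hqw⟩ := h2
    exact ⟨q, eventually_eq_of_closure hlh b hqZ, hqw⟩
  have h0W : (0 : ℂ) ∈ W := by
    show x 0 ∈ Metric.ball (0 : ℂ × ℂ) ρ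
    simp only [hx]; rw [zero_smul, add_zero]; exact hq0
  have h0A : (0 : ℂ) ∈ A := ⟨h0W, q0, hev, by simp only [hx]; rw [zero_smul, add_zero]⟩
  obtain ⟨-, q, -, hq⟩ := hWconv.isPreconnected.subset_of_closure_inter_subset hAo
    ⟨0, h0W, h0A⟩ hAc hw
  exact ⟨q, hq⟩

/-- the three pieces of the support -/
def S3 (x : ℂ × ℂ) : Prop :=
  (x.1.re = 0 ∧ x.2.re ≤ 0) ∨ (x.2.re = 0 ∧ x.1.re ≤ 0) ∨ (x.1.re = x.2.re ∧ 0 ≤ x.1.re)

theorem isClosed_S3 : IsClosed {x : ℂ × ℂ | S3 x} := by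
  have h1 : Continuous fun x : ℂ × ℂ => x.1.re := by fun_prop
  have h2 : Continuous fun x : ℂ × ℂ => x.2.re := by fun_prop
  exact ((isClosed_eq h1 continuous_const).inter (isClosed_le h2 continuous_const)).union
    (((isClosed_eq h2 continuous_const).inter (isClosed_le h1 continuous_const)).union
      ((isClosed_eq h1 h2).inter (isClosed_le continuous_const h1)))

/-- No curve which is proper to a ball around the origin is contained in the three pieces. -/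
theorem no_curve {h : X → ℂ × ℂ} (hh : MDifferentiable 𝓘(ℂ, ℂ) 𝓘(ℂ, ℂ × ℂ) h)
    (hnc : ∀ b, ¬ ∀ x, h x = b) {ρ : ℝ}
    (hprop : ∀ K ⊆ Metric.ball (0 : ℂ × ℂ) ρ, IsCompact K → IsCompact (h ⁻¹' K))
    (hS : ∀ q, S3 (h q)) (p : X) (hp : h p ∈ Metric.ball (0 : ℂ × ℂ) ρ) : False := by
  have hcont : Continuous h := hh.continuous
  have hρ : 0 < ρ := lt_of_le_of_lt dist_nonneg (Metric.mem_ball.1 hp)
  -- the three linear forms
  let l : Fin 3 → (ℂ × ℂ →L[ℂ] ℂ) := ![ContinuousLinearMap.fst ℂ ℂ ℂ,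
    ContinuousLinearMap.snd ℂ ℂ ℂ, ContinuousLinearMap.fst ℂ ℂ ℂ - ContinuousLinearMap.snd ℂ ℂ ℂ]
  have hlh : ∀ k, MDifferentiable 𝓘(ℂ, ℂ) 𝓘(ℂ, ℂ) (fun x => l k (h x)) := fun k =>
    (l k).differentiable.mdifferentiable.comp hh
  have hcl : ∀ k, IsClosed {q : X | (l k (h q)).re = 0} := fun k =>
    isClosed_eq (Complex.continuous_re.comp ((l k).continuous.comp hcont)) continuous_const
  have hcov : ∀ q, (l 0 (h q)).re = 0 ∨ (l 1 (h q)).re = 0 ∨ (l 2 (h q)).re = 0 := by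
    intro q
    rcases hS q with h1 | h1 | h1
    · exact Or.inl h1.1
    · exact Or.inr (Or.inl h1.1)
    · right; right
      show ((h q).1 - (h q).2).re = 0
      rw [Complex.sub_re, h1.1, sub_self]
  have hO : IsOpen (h ⁻¹' Metric.ball (0 : ℂ × ℂ) ρ) := Metric.isOpen_ball.preimage hcont
  have hex : ∃ (k : Fin 3) (q : X), h q ∈ Metric.ball (0 : ℂ × ℂ) ρ ∧
      ∀ᶠ x in 𝓝 q, (l k (h x)).re = 0 := by
    by_cases c0 : ∀ q ∈ h ⁻¹' Metric.ball (0 : ℂ × ℂ) ρ, (l 0 (h q)).re = 0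
    · exact ⟨0, p, hp, by filter_upwards [hO.mem_nhds hp] with x hx using c0 x hx⟩
    push Not at c0
    obtain ⟨q, hq, hq0⟩ := c0
    have hO1 : IsOpen (h ⁻¹' Metric.ball (0 : ℂ × ℂ) ρ ∩ {q : X | (l 0 (h q)).re = 0}ᶜ) :=
      hO.inter (hcl 0).isOpen_compl
    by_cases c1 : ∀ q ∈ h ⁻¹' Metric.ball (0 : ℂ × ℂ) ρ ∩ {q : X | (l 0 (h q)).re = 0}ᶜ,
        (l 1 (h q)).re = 0
    · exact ⟨1, q, hq, by filter_upwards [hO1.mem_nhds ⟨hq, hq0⟩] with x hx using c1 x hx⟩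
    push Not at c1
    obtain ⟨q', ⟨hq', hq'0⟩, hq'1⟩ := c1
    have hO2 : IsOpen ((h ⁻¹' Metric.ball (0 : ℂ × ℂ) ρ ∩ {q : X | (l 0 (h q)).re = 0}ᶜ) ∩
        {q : X | (l 1 (h q)).re = 0}ᶜ) := hO1.inter (hcl 1).isOpen_compl
    refine ⟨2, q', hq', ?_⟩
    filter_upwards [hO2.mem_nhds ⟨⟨hq', hq'0⟩, hq'1⟩] with x hx
    rcases hcov x with h1 | h1 | h1
    · exact absurd h1 hx.1.2
    · exact absurd h1 hx.2
    · exact h1
  obtain ⟨k, q, hqB, hre⟩ := hex
  have hconst := eventually_const_of_re (hlh k) hre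
  have hre0 := hre.self_of_nhds
  have hnorm : ∀ x : ℂ × ℂ, x ∈ Metric.ball (0 : ℂ × ℂ) ρ ↔ ‖x.1‖ < ρ ∧ ‖x.2‖ < ρ := by
    intro x
    rw [mem_ball_zero_iff, Prod.norm_def, max_lt_iff]
  obtain ⟨hq1, hq2⟩ := (hnorm _).1 hqB
  fin_cases k
  · -- first piece
    have h1 : (h q).1.re = 0 := hre0
    obtain ⟨q', hq'⟩ := line_covered hh hnc hprop (ContinuousLinearMap.fst ℂ ℂ ℂ)
      (ContinuousLinearMap.snd ℂ ℂ ℂ) (0, 1) rfl rfl (fun x hx => by
        have hx' : x.1 = 0 := hx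
        ext <;> simp [hx']) hqB hconst ((ρ / 2 : ℝ) - (h q).2) (by
        rw [hnorm]
        constructor
        · simpa using hq1
        · simp only [Prod.snd_add, Prod.smul_snd, smul_eq_mul, mul_one, add_sub_cancel]
          rw [Complex.norm_real, Real.norm_eq_abs, abs_of_pos (by linarith)]
          linarith)
    have h2 := hS q'
    rw [hq'] at h2
    have e1 : (h q + ((ρ / 2 : ℝ) - (h q).2) • ((0 : ℂ), (1 : ℂ))).1.re = 0 := by simp [h1]
    have e2 : (h q + ((ρ / 2 : ℝ) - (h q).2) • ((0 : ℂ), (1 : ℂ))).2.re = ρ / 2 := by simp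
    unfold S3 at h2
    rw [e1, e2] at h2
    rcases h2 with h2 | h2 | h2 <;> linarith [h2.1, h2.2]
  · -- second piece
    have h1 : (h q).2.re = 0 := hre0
    obtain ⟨q', hq'⟩ := line_covered hh hnc hprop (ContinuousLinearMap.snd ℂ ℂ ℂ)
      (ContinuousLinearMap.fst ℂ ℂ ℂ) (1, 0) rfl rfl (fun x hx => by
        have hx' : x.2 = 0 := hx
        ext <;> simp [hx']) hqB hconst ((ρ / 2 : ℝ) - (h q).1) (by
        rw [hnorm]
        constructor
        · simp only [Prod.fst_add, Prod.smul_fst, smul_eq_mul, mul_one, add_sub_cancel]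
          rw [Complex.norm_real, Real.norm_eq_abs, abs_of_pos (by linarith)]
          linarith
        · simpa using hq2)
    have h2 := hS q'
    rw [hq'] at h2
    have e1 : (h q + ((ρ / 2 : ℝ) - (h q).1) • ((1 : ℂ), (0 : ℂ))).1.re = ρ / 2 := by simp
    have e2 : (h q + ((ρ / 2 : ℝ) - (h q).1) • ((1 : ℂ), (0 : ℂ))).2.re = 0 := by simp [h1]
    unfold S3 at h2
    rw [e1, e2] at h2
    rcases h2 with h2 | h2 | h2 <;> linarith [h2.1, h2.2]
  · -- third piece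
    have h1 : (h q).1.re = (h q).2.re := by
      have : ((h q).1 - (h q).2).re = 0 := hre0
      rw [Complex.sub_re] at this
      linarith
    -- a small negative real part
    obtain ⟨δ, hδ, hδB⟩ : ∃ δ : ℝ, 0 < δ ∧
        h q + ((-δ - (h q).1.re : ℝ) : ℂ) • ((1 : ℂ), (1 : ℂ)) ∈ Metric.ball (0 : ℂ × ℂ) ρ := by
      have hc : Continuous fun δ : ℝ =>
          h q + ((-δ - (h q).1.re : ℝ) : ℂ) • ((1 : ℂ), (1 : ℂ)) := by fun_prop
      have h0 : h q + ((-(0 : ℝ) - (h q).1.re : ℝ) : ℂ) • ((1 : ℂ), (1 : ℂ)) ∈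
          Metric.ball (0 : ℂ × ℂ) ρ := by
        rw [hnorm]
        have e1 : (h q + ((-(0 : ℝ) - (h q).1.re : ℝ) : ℂ) • ((1 : ℂ), (1 : ℂ))).1 =
            ((h q).1.im : ℂ) * Complex.I := by
          apply Complex.ext <;> simp
        have e2 : (h q + ((-(0 : ℝ) - (h q).1.re : ℝ) : ℂ) • ((1 : ℂ), (1 : ℂ))).2 =
            ((h q).2.im : ℂ) * Complex.I := by
          apply Complex.ext <;> simp [h1]
        rw [e1, e2, norm_mul, norm_mul, Complex.norm_I, mul_one, mul_one, Complex.norm_real,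
          Complex.norm_real, Real.norm_eq_abs, Real.norm_eq_abs]
        exact ⟨(Complex.abs_im_le_norm _).trans_lt hq1, (Complex.abs_im_le_norm _).trans_lt hq2⟩
      have h2 := (hc.tendsto 0).eventually (Metric.isOpen_ball.mem_nhds h0)
      obtain ⟨δ, hδ1, hδ2⟩ := (h2.filter_mono (nhdsWithin_le_nhds (s := Ioi 0))).and
        self_mem_nhdsWithin |>.exists
      exact ⟨δ, hδ2, hδ1⟩
    obtain ⟨q', hq'⟩ := line_covered hh hnc hprop
      (ContinuousLinearMap.fst ℂ ℂ ℂ - ContinuousLinearMap.snd ℂ ℂ ℂ)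
      (ContinuousLinearMap.fst ℂ ℂ ℂ) (1, 1) (by simp) rfl (fun x hx => by
        have hx' : x.1 - x.2 = 0 := hx
        ext
        · simp
        · simp [sub_eq_zero.1 hx']) hqB hconst _ hδB
    have h2 := hS q'
    rw [hq'] at h2
    have e1 : (h q + ((-δ - (h q).1.re : ℝ) : ℂ) • ((1 : ℂ), (1 : ℂ))).1.re = -δ := by simp
    have e2 : (h q + ((-δ - (h q).1.re : ℝ) : ℂ) • ((1 : ℂ), (1 : ℂ))).2.re = -δ := by
      simp [h1]
    unfold S3 at h2
    rw [e1, e2] at h2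
    rcases h2 with h2 | h2 | h2 <;> linarith [h2.1, h2.2]

end Pool.Agent.TH623.LC
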