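import Mathlib

set_option autoImplicit false

open MeasureTheory TopologicalSpace Set Filter
open scoped Manifold ContDiff Topology NNReal

namespace Pool.Agent.TH623.LC

variable {X : Type} [TopologicalSpace X] [ChartedSpace ℂ X] [IsManifold 𝓘(ℂ, ℂ) ω X]
  {F : Type} [NormedAddCommGroup F] [NormedSpace ℂ F] [CompleteSpace F]

theorem analytic_chart {f : X → F} (hf : MDifferentiable 𝓘(ℂ, ℂ) 𝓘(ℂ, F) f) (p : X) :
    AnalyticOnNhd ℂ (f ∘ (chartAt ℂ p).symm) (chartAt ℂ p).target := by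
  have h1 : MDifferentiableOn 𝓘(ℂ, ℂ) 𝓘(ℂ, ℂ) (chartAt ℂ p).symm (chartAt ℂ p).target :=
    (contMDiffOn_chart_symm (n := ω)).mdifferentiableOn (by simp)
  have h2 : MDifferentiableOn 𝓘(ℂ, ℂ) 𝓘(ℂ, F) (f ∘ (chartAt ℂ p).symm) (chartAt ℂ p).target :=
    hf.comp_mdifferentiableOn h1
  rw [mdifferentiableOn_iff_differentiableOn] at h2
  exact h2.analyticOnNhd (chartAt ℂ p).open_target

theorem nhds_chart (p q : X) (hq : q ∈ (chartAt ℂ p).source) :
    𝓝 q = map (chartAt ℂ p).symm (𝓝 (chartAt ℂ p q)) := by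
  have h1 := (chartAt ℂ p).symm.map_nhds_eq ((chartAt ℂ p).map_source hq)
  rw [h1, (chartAt ℂ p).left_inv hq]

/-- identity theorem -/
theorem eventually_eq_of_closure {f : X → F} (hf : MDifferentiable 𝓘(ℂ, ℂ) 𝓘(ℂ, F) f) (b : F)
    {q : X} (hq : q ∈ closure {q' : X | ∀ᶠ x in 𝓝 q', f x = b}) : ∀ᶠ x in 𝓝 q, f x = b := by
  set φ := chartAt ℂ q with hφ
  have hq0 : q ∈ φ.source := mem_chart_source ℂ q
  obtain ⟨r, hr, hball⟩ := Metric.isOpen_iff.1 φ.open_target (φ q) (φ.map_source hq0)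
  have hVo : IsOpen (φ.source ∩ φ ⁻¹' Metric.ball (φ q) r) :=
    φ.isOpen_inter_preimage Metric.isOpen_ball
  have hqV : q ∈ φ.source ∩ φ ⁻¹' Metric.ball (φ q) r := ⟨hq0, Metric.mem_ball_self hr⟩
  obtain ⟨q', ⟨hq's, hq'b⟩, hq'⟩ := mem_closure_iff.1 hq _ hVo hqV
  have hev : (f ∘ φ.symm) =ᶠ[𝓝 (φ q')] fun _ => b := by
    have h1 : 𝓝 q' = map φ.symm (𝓝 (φ q')) := nhds_chart q q' hq's
    have h2 : ∀ᶠ x in 𝓝 q', f x = b := hq'
    rw [h1, eventually_map] at h2
    exact h2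
  have heq := ((analytic_chart hf q).mono hball).eqOn_of_preconnected_of_eventuallyEq
    (analyticOnNhd_const (v := b)) (convex_ball _ _).isPreconnected hq'b hev
  filter_upwards [hVo.mem_nhds hqV] with x hx
  have h1 := heq hx.2
  rw [Function.comp_apply, φ.left_inv hx.1] at h1
  exact h1

theorem const_of_eventually [ConnectedSpace X] {f : X → F}
    (hf : MDifferentiable 𝓘(ℂ, ℂ) 𝓘(ℂ, F) f) (b : F) {q : X} (hq : ∀ᶠ x in 𝓝 q, f x = b) :
    ∀ x, f x = b := by
  have hcl : IsClosed {q' : X | ∀ᶠ x in 𝓝 q', f x = b} := by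
    apply isClosed_of_closure_subset
    intro q' hq'
    exact eventually_eq_of_closure hf b hq'
  have hop : IsOpen {q' : X | ∀ᶠ x in 𝓝 q', f x = b} := isOpen_setOfPred_eventually_nhds
  have huniv := IsClopen.eq_univ ⟨hcl, hop⟩ ⟨q, hq⟩
  intro x
  have hx : x ∈ {q' : X | ∀ᶠ x in 𝓝 q', f x = b} := by rw [huniv]; trivial
  have hx' : ∀ᶠ y in 𝓝 x, f y = b := hx
  exact hx'.self_of_nhds

/-- open mapping theorem -/
theorem open_mapping {g : X → ℂ} (hg : MDifferentiable 𝓘(ℂ, ℂ) 𝓘(ℂ, ℂ) g) (q : X) :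
    (∀ᶠ x in 𝓝 q, g x = g q) ∨ 𝓝 (g q) ≤ map g (𝓝 q) := by
  have hq0 : q ∈ (chartAt ℂ q).source := mem_chart_source ℂ q
  have han := analytic_chart hg q (chartAt ℂ q q) ((chartAt ℂ q).map_source hq0)
  have h1 := nhds_chart q q hq0
  have h2 : (g ∘ (chartAt ℂ q).symm) (chartAt ℂ q q) = g q := by
    rw [Function.comp_apply, (chartAt ℂ q).left_inv hq0]
  rcases han.eventually_constant_or_nhds_le_map_nhds with h | h
  · left
    rw [h1, eventually_map]
    filter_upwards [h] with z hz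
    rw [h2] at hz
    exact hz
  · right
    rw [h2] at h
    rw [h1, Filter.map_map]
    exact h

/-- a holomorphic function with vanishing real part near a point is constant near that point -/
theorem eventually_const_of_re {g : X → ℂ} (hg : MDifferentiable 𝓘(ℂ, ℂ) 𝓘(ℂ, ℂ) g) {q : X}
    (hre : ∀ᶠ x in 𝓝 q, (g x).re = 0) : ∀ᶠ x in 𝓝 q, g x = g q := by
  rcases open_mapping hg q with h | h
  · exact h
  · exfalso
    have h1 : ∀ᶠ w in 𝓝 (g q), w.re = 0 := h (eventually_map.2 hre)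
    have h2 : Tendsto (fun t : ℝ => g q + t) (𝓝 0) (𝓝 (g q)) := by
      have : Tendsto (fun t : ℝ => g q + t) (𝓝 0) (𝓝 (g q + (0 : ℝ))) :=
        (continuous_const.add Complex.continuous_ofReal).tendsto 0
      simpa using this
    have h3 : ∀ᶠ t : ℝ in 𝓝 0, (g q + t).re = 0 := h2.eventually h1
    have h4 : (g q).re = 0 := hre.self_of_nhds
    have h5 : ∀ᶠ t : ℝ in 𝓝 0, t = 0 := by
      filter_upwards [h3] with t ht
      simpa [h4] using ht
    have h6 : ({0} : Set ℝ) ∈ 𝓝 (0 : ℝ) := h5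
    exact not_isOpen_singleton (0 : ℝ) (isOpen_singleton_iff_nhds_eq_pure 0 |>.2
      (le_antisymm (le_pure_iff.2 h6) (pure_le_nhds 0)))

/-- if the derivative in a chart vanishes near a point then the map is constant near it -/
theorem eventually_const_of_fderiv {f : X → F} (hf : MDifferentiable 𝓘(ℂ, ℂ) 𝓘(ℂ, F) f) (p : X)
    {q : X} (hq : q ∈ (chartAt ℂ p).source)
    (h : ∀ᶠ x in 𝓝 q, fderiv ℂ (f ∘ (chartAt ℂ p).symm) (chartAt ℂ p x) = 0) :
    ∀ᶠ x in 𝓝 q, f x = f q := by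
  set φ := chartAt ℂ p with hφ
  have hev : ∀ᶠ z in 𝓝 (φ q), fderiv ℂ (f ∘ φ.symm) z = 0 := by
    have h1 : 𝓝 q = map φ.symm (𝓝 (φ q)) := nhds_chart p q hq
    rw [h1, eventually_map] at h
    filter_upwards [h, φ.open_target.mem_nhds (φ.map_source hq)] with z hz hzt
    rwa [φ.right_inv hzt] at hz
  obtain ⟨r, hr, hball⟩ := Metric.mem_nhds_iff.1
    (Filter.inter_mem hev (φ.open_target.mem_nhds (φ.map_source hq)))
  have hdiff : DifferentiableOn ℂ (f ∘ φ.symm) (Metric.ball (φ q) r) :=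
    ((analytic_chart hf p).mono fun z hz => (hball hz).2).differentiableOn
  have hconst : ∀ z ∈ Metric.ball (φ q) r, (f ∘ φ.symm) z = (f ∘ φ.symm) (φ q) := by
    intro z hz
    exact (Metric.isOpen_ball (x := φ q) (ε := r)).is_const_of_fderiv_eq_zero
      (convex_ball _ _).isPreconnected hdiff (fun w hw => (hball hw).1) hz
      (Metric.mem_ball_self hr)
  have hVo : IsOpen (φ.source ∩ φ ⁻¹' Metric.ball (φ q) r) :=
    φ.isOpen_inter_preimage Metric.isOpen_ball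
  filter_upwards [hVo.mem_nhds ⟨hq, Metric.mem_ball_self hr⟩] with x hx
  have h1 := hconst _ hx.2
  rw [Function.comp_apply, Function.comp_apply, φ.left_inv hx.1, φ.left_inv hq] at h1
  exact h1

end Pool.Agent.TH623.LC
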