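import Pool.Agent.TH623.LC.Defs
import Pool.Agent.TH623.LC.Surf

set_option autoImplicit false

open MeasureTheory TopologicalSpace Set Filter
open scoped Manifold ContDiff Topology NNReal

namespace Pool.Agent.TH623.LC

/-- the wedge product of two linear forms -/
def wedge {V : Type} [NormedAddCommGroup V] [NormedSpace ℝ V] (φ ψ : V →L[ℝ] ℝ) :
    V [⋀^Fin 2]→L[ℝ] ℝ where
  toFun v := φ (v 0) * ψ (v 1) - φ (v 1) * ψ (v 0)
  map_update_add' := by
    intro _ m i x y
    fin_cases i <;> simp <;> ring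
  map_update_smul' := by
    intro _ m i c x
    fin_cases i <;> simp <;> ring
  cont := by fun_prop
  map_eq_zero_of_eq' := by
    intro v i j hij hne
    fin_cases i <;> fin_cases j
    · exact absurd rfl hne
    · have h : v 0 = v 1 := hij
      show φ (v 0) * ψ (v 1) - φ (v 1) * ψ (v 0) = 0
      rw [h]; ring
    · have h : v 1 = v 0 := hij
      show φ (v 0) * ψ (v 1) - φ (v 1) * ψ (v 0) = 0
      rw [h]; ring
    · exact absurd rfl hne

variable {R : Type} [NormedAddCommGroup R] [NormedSpace ℝ R]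

/-- the standard Kähler form of the leaves -/
noncomputable def omega0 (R : Type) [NormedAddCommGroup R] [NormedSpace ℝ R] :
    Mfd R [⋀^Fin 2]→L[ℝ] ℝ :=
  wedge (Complex.reCLM.comp ((ContinuousLinearMap.fst ℝ ℂ ℂ).comp
      (ContinuousLinearMap.fst ℝ (ℂ × ℂ) R)))
    (Complex.imCLM.comp ((ContinuousLinearMap.fst ℝ ℂ ℂ).comp
      (ContinuousLinearMap.fst ℝ (ℂ × ℂ) R))) +
  wedge (Complex.reCLM.comp ((ContinuousLinearMap.snd ℝ ℂ ℂ).comp
      (ContinuousLinearMap.fst ℝ (ℂ × ℂ) R)))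
    (Complex.imCLM.comp ((ContinuousLinearMap.snd ℝ ℂ ℂ).comp
      (ContinuousLinearMap.fst ℝ (ℂ × ℂ) R)))

/-- the square of the euclidean norm on `ℂ²` -/
noncomputable def Q (a : ℂ × ℂ) : ℝ := Complex.normSq a.1 + Complex.normSq a.2

theorem Q_nonneg (a : ℂ × ℂ) : 0 ≤ Q a :=
  add_nonneg (Complex.normSq_nonneg _) (Complex.normSq_nonneg _)

theorem Q_pos {a : ℂ × ℂ} (ha : a ≠ 0) : 0 < Q a := by
  unfold Q
  by_cases h1 : a.1 = 0
  · have h2 : a.2 ≠ 0 := fun h => ha (Prod.ext h1 h)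
    have := Complex.normSq_pos.2 h2
    have := Complex.normSq_nonneg a.1
    linarith
  · have := Complex.normSq_pos.2 h1
    have := Complex.normSq_nonneg a.2
    linarith

theorem Q_continuous : Continuous Q := by
  unfold Q
  fun_prop

theorem omega0_apply (a : ℂ × ℂ) :
    omega0 R ![tang R a, tang R (Complex.I • a)] = Q a := by
  show (a.1.re * (Complex.I * a.1).im - (Complex.I * a.1).re * a.1.im) +
    (a.2.re * (Complex.I * a.2).im - (Complex.I * a.2).re * a.2.im) = Q a
  unfold Q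
  simp [Complex.normSq_apply]

/-- the form `f ω₀` -/
noncomputable def fw {U : Opens (Mfd R)} (f : TestFunction U ℝ ⊤) : Form R U 2 where
  toFun y := f y • omega0 R
  contDiff' := f.contDiff.smul contDiff_const
  hasCompactSupport' := f.hasCompactSupport.smul_right
  tsupport_subset' := (tsupport_smul_subset_left _ _).trans f.tsupport_subset

theorem fw_apply {U : Opens (Mfd R)} (f : TestFunction U ℝ ⊤) (y : Mfd R) (a : ℂ × ℂ) :
    fw f y ![tang R a, tang R (Complex.I • a)] = f y * Q a := by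
  show (f y • omega0 R) _ = _
  rw [ContinuousAlternatingMap.smul_apply, omega0_apply, smul_eq_mul]

variable {X : Type} [TopologicalSpace X] [T2Space X] [ChartedSpace ℂ X]
  [IsManifold 𝓘(ℂ, ℂ) ω X] [ConnectedSpace X]

/-- the integrand in the chart at `p` -/
noncomputable def igd {U : Opens (Mfd R)} (χ : PartitionOfUnity X X univ) (h : X → ℂ × ℂ) (r : R)
    (f : TestFunction U ℝ ⊤) (p : X) (z : ℂ) : ℝ :=
  χ p ((chartAt ℂ p).symm z) * (f (toLeaf h r ((chartAt ℂ p).symm z)) *
    Q (fderiv ℂ (h ∘ (chartAt ℂ p).symm) z 1))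

theorem integral_fw {U : Opens (Mfd R)} (χ : PartitionOfUnity X X univ) (h : X → ℂ × ℂ) (r : R)
    (f : TestFunction U ℝ ⊤) :
    integral χ h r (fw f) = ∑ᶠ p : X, ∫ z in (chartAt ℂ p).target, igd χ h r f p z := by
  unfold integral
  congr 1
  funext p
  congr 1
  funext z
  unfold igd
  have h1 : fderiv ℂ (h ∘ (chartAt ℂ p).symm) z Complex.I =
      Complex.I • fderiv ℂ (h ∘ (chartAt ℂ p).symm) z 1 := by
    rw [← map_smul, smul_eq_mul, mul_one]
  rw [h1, fw_apply]

theorem igd_nonneg {U : Opens (Mfd R)} (χ : PartitionOfUnity X X univ) (h : X → ℂ × ℂ) (r : R)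
    (f : TestFunction U ℝ ⊤) (hf : ∀ y, 0 ≤ f y) (p : X) (z : ℂ) : 0 ≤ igd χ h r f p z :=
  mul_nonneg (χ.nonneg _ _) (mul_nonneg (hf _) (Q_nonneg _))

theorem integral_fw_nonneg {U : Opens (Mfd R)} (χ : PartitionOfUnity X X univ) (h : X → ℂ × ℂ)
    (r : R) (f : TestFunction U ℝ ⊤) (hf : ∀ y, 0 ≤ f y) : 0 ≤ integral χ h r (fw f) := by
  rw [integral_fw]
  exact finsum_nonneg fun p => integral_nonneg fun z => igd_nonneg χ h r f hf p z

/-- The integral of a nonnegative multiple of the Kähler form over a curve is positive if the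
function is positive at some point of the curve. -/
theorem integral_fw_pos {U : Opens (Mfd R)} (χ : PartitionOfUnity X X univ)
    (hχ : χ.IsSubordinate (fun p => (chartAt ℂ p).source)) {h : X → ℂ × ℂ}
    (hh : MDifferentiable 𝓘(ℂ, ℂ) 𝓘(ℂ, ℂ × ℂ) h) (hnc : ∀ b, ¬ ∀ x, h x = b) (r : R)
    (hprop : ∀ K : Set (Mfd R), IsCompact K → K ⊆ U → IsCompact (toLeaf h r ⁻¹' K))
    (f : TestFunction U ℝ ⊤) (hf : ∀ y, 0 ≤ f y) (p₀ : X) (hp₀ : f (toLeaf h r p₀) ≠ 0) :
    0 < integral χ h r (fw f) := by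
  have hcont : Continuous h := hh.continuous
  have hucont : Continuous (toLeaf h r) := hcont.prodMk continuous_const
  have hK' : IsCompact (toLeaf h r ⁻¹' tsupport f) :=
    hprop _ f.hasCompactSupport f.tsupport_subset
  set K' := toLeaf h r ⁻¹' tsupport f with hK'def
  have hfK : ∀ q, q ∉ K' → f (toLeaf h r q) = 0 := fun q hq =>
    image_eq_zero_of_notMem_tsupport hq
  rw [integral_fw]
  -- the sum is finite
  have hfin : (Function.support fun p : X =>
      ∫ z in (chartAt ℂ p).target, igd χ h r f p z).Finite := by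
    refine (χ.locallyFinite_tsupport.finite_nonempty_inter_compact hK').subset ?_
    intro p hp
    by_contra hcon
    rw [mem_ofPred_eq, not_nonempty_iff_eq_empty] at hcon
    apply hp
    have hz : ∀ z, igd χ h r f p z = 0 := by
      intro z
      unfold igd
      by_cases h1 : (chartAt ℂ p).symm z ∈ K'
      · have h2 : (chartAt ℂ p).symm z ∉ tsupport (χ p) := fun h3 => by
          have : (chartAt ℂ p).symm z ∈ tsupport (χ p) ∩ K' := ⟨h3, h1⟩
          rw [hcon] at this
          exact this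
        rw [image_eq_zero_of_notMem_tsupport h2, zero_mul]
      · rw [hfK _ h1]; ring
    simp only [hz, MeasureTheory.integral_zero]
  obtain ⟨i, hi⟩ := χ.exists_pos (mem_univ p₀)
  have hp₀s : p₀ ∈ (chartAt ℂ i).source := hχ i (subset_tsupport _ hi.ne')
  refine lt_of_lt_of_le ?_ (single_le_finsum i hfin fun p =>
    integral_nonneg fun z => igd_nonneg χ h r f hf p z)
  set φ := chartAt ℂ i with hφ
  -- a point with nonzero derivative
  have hnear : ∀ᶠ q in 𝓝 p₀, χ i q ≠ 0 ∧ f (toLeaf h r q) ≠ 0 ∧ q ∈ φ.source := by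
    have h1 : ∀ᶠ q in 𝓝 p₀, χ i q ≠ 0 := (χ i).continuous.continuousAt.eventually_ne hi.ne'
    have h2 : ∀ᶠ q in 𝓝 p₀, f (toLeaf h r q) ≠ 0 :=
      (f.continuous.comp hucont).continuousAt.eventually_ne hp₀
    have h3 : ∀ᶠ q in 𝓝 p₀, q ∈ φ.source := φ.open_source.mem_nhds hp₀s
    filter_upwards [h1, h2, h3] with q a b c using ⟨a, b, c⟩
  obtain ⟨p₁, ⟨h1, h2, h3⟩, h4⟩ : ∃ p₁, (χ i p₁ ≠ 0 ∧ f (toLeaf h r p₁) ≠ 0 ∧ p₁ ∈ φ.source) ∧
      fderiv ℂ (h ∘ φ.symm) (φ p₁) ≠ 0 := by
    by_contra hcon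
    push Not at hcon
    have h5 : ∀ᶠ x in 𝓝 p₀, fderiv ℂ (h ∘ φ.symm) (φ x) = 0 := by
      filter_upwards [hnear] with q hq using hcon q hq
    have h6 := eventually_const_of_fderiv hh i hp₀s h5
    exact hnc _ (const_of_eventually hh _ h6)
  have hD1 : fderiv ℂ (h ∘ φ.symm) (φ p₁) 1 ≠ 0 := by
    intro h5
    apply h4
    ext1
    simpa using h5
  -- continuity of the integrand
  have hcsymm : ContinuousOn φ.symm φ.target := φ.continuousOn_symm
  have hcD : ContinuousOn (fun z => fderiv ℂ (h ∘ φ.symm) z 1) φ.target :=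
    ((analytic_chart hh i).fderiv.continuousOn).clm_apply continuousOn_const
  have hcg : ContinuousOn (igd χ h r f i) φ.target := by
    refine ContinuousOn.mul ?_ (ContinuousOn.mul ?_ ?_)
    · exact (χ i).continuous.comp_continuousOn hcsymm
    · exact (f.continuous.comp hucont).comp_continuousOn hcsymm
    · exact Q_continuous.comp_continuousOn hcD
  -- integrability
  have hKc : IsCompact (φ '' (tsupport (χ i) ∩ K')) := by
    refine (hK'.inter_left (isClosed_tsupport _)).image_of_continuousOn ?_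
    exact φ.continuousOn.mono fun q hq => hχ i hq.1
  have hKt : φ '' (tsupport (χ i) ∩ K') ⊆ φ.target := by
    rintro _ ⟨q, hq, rfl⟩
    exact φ.map_source (hχ i hq.1)
  have hint : IntegrableOn (igd χ h r f i) φ.target := by
    refine IntegrableOn.of_forall_sdiff_eq_zero
      ((hcg.mono hKt).integrableOn_compact hKc) φ.open_target.measurableSet ?_
    rintro z ⟨hz, hzK⟩
    unfold igd
    by_cases h5 : φ.symm z ∈ K'
    · have h6 : φ.symm z ∉ tsupport (χ i) := fun h6 =>
        hzK ⟨φ.symm z, ⟨h6, h5⟩, φ.right_inv hz⟩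
      rw [image_eq_zero_of_notMem_tsupport h6, zero_mul]
    · rw [hfK _ h5]; ring
  rw [setIntegral_pos_iff_support_of_nonneg_ae
    (Eventually.of_forall fun z => igd_nonneg χ h r f hf i z) hint]
  have hz1 : φ p₁ ∈ φ.target := φ.map_source h3
  have hval : igd χ h r f i (φ p₁) ≠ 0 := by
    unfold igd
    rw [φ.left_inv h3]
    exact mul_ne_zero h1 (mul_ne_zero h2 (Q_pos hD1).ne')
  have hev : ∀ᶠ z in 𝓝 (φ p₁), z ∈ Function.support (igd χ h r f i) ∩ φ.target := by
    have h5 : ContinuousAt (igd χ h r f i) (φ p₁) := hcg.continuousAt (φ.open_target.mem_nhds hz1)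
    filter_upwards [h5.eventually_ne hval, φ.open_target.mem_nhds hz1] with z a b using ⟨a, b⟩
  exact Measure.measure_pos_of_mem_nhds _ hev

end Pool.Agent.TH623.LC
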