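import Pool.Agent.TH623.LC.Stokes
import Pool.Agent.TH623.LC.Geom
import Pool.Agent.TH623.LC.Pos

set_option autoImplicit false

open MeasureTheory TopologicalSpace Set Filter
open scoped Manifold ContDiff Topology NNReal

namespace Pool.Agent.TH623.LC

variable {R : Type} [NormedAddCommGroup R] [NormedSpace ℝ R]

theorem dirac_incl_fw {U : Opens (Mfd R)} (f : TestFunction U ℝ ⊤) (y : Mfd R) (v : ℂ × ℂ) :
    dirac y v (incl (fw f)) = f y * Q v := fw_apply f y v

/-- the support of the current of the example -/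
def Supp (R : Type) [NormedAddCommGroup R] : Set (Mfd R) := {y | y.2 = 0 ∧ S3 y.1}

theorem isClosed_Supp : IsClosed (Supp R) :=
  (isClosed_eq continuous_snd continuous_const).inter (isClosed_S3.preimage continuous_fst)

theorem Psi_mem_Supp (k : Fin 3) (p : ℝ × ℝ × ℝ) (hp : p.1 < 0) :
    Psi R (vv k) (ee k) p ∈ Supp R := by
  rw [Psi_apply]
  refine ⟨by simp [tang], ?_⟩
  fin_cases k
  · left
    simp [vv, ee, tang]
    exact hp.le
  · right; left
    simp [vv, ee, tang]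
    exact hp.le
  · right; right
    simp [vv, ee, tang]
    exact hp.le

theorem ae_half : ∀ᵐ p : ℝ × ℝ × ℝ ∂half, p.1 < 0 := by
  have h : half = volume.restrict (Iio (0 : ℝ) ×ˢ (univ : Set (ℝ × ℝ))) := by
    unfold half
    rw [Measure.volume_eq_prod ℝ (ℝ × ℝ), ← Measure.prod_restrict, Measure.restrict_univ]
  rw [h]
  filter_upwards [ae_restrict_mem (measurableSet_Iio.prod MeasurableSet.univ)] with p hp
  exact hp.1

section

variable [MeasurableSpace R] [BorelSpace R] [FiniteDimensional ℝ R]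

theorem trop_fw {U : Opens (Mfd R)} (f : TestFunction U ℝ ⊤) :
    trop R (incl (fw f)) = ∑ k : Fin 3, ∫ p, f (Psi R (vv k) (ee k) p) * Q (vv k) ∂half := by
  rw [trop_apply']
  simp only [dirac_incl_fw]

theorem trop_fw_zero {U : Opens (Mfd R)} (f : TestFunction U ℝ ⊤)
    (hf : ∀ y ∈ Supp R, f y = 0) : trop R (incl (fw f)) = 0 := by
  rw [trop_fw]
  refine Finset.sum_eq_zero fun k _ => ?_
  have h1 : (fun p => f (Psi R (vv k) (ee k) p) * Q (vv k)) =ᵐ[half] fun _ => (0 : ℝ) := by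
    filter_upwards [ae_half] with p hp
    rw [hf _ (Psi_mem_Supp k p hp), zero_mul]
  rw [integral_congr_ae h1, MeasureTheory.integral_zero]

theorem trop_fw_pos {U : Opens (Mfd R)} (f : TestFunction U ℝ ⊤) (hf : ∀ y, 0 ≤ f y)
    (h0 : f 0 ≠ 0) : 0 < trop R (incl (fw f)) := by
  rw [trop_fw]
  have hnn : ∀ k : Fin 3, 0 ≤ ∫ p, f (Psi R (vv k) (ee k) p) * Q (vv k) ∂half := fun k =>
    integral_nonneg fun p => mul_nonneg (hf _) (Q_nonneg _)
  refine lt_of_lt_of_le ?_ (Finset.single_le_sum (fun k _ => hnn k) (Finset.mem_univ (0 : Fin 3)))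
  have hfc : Continuous (fun y => f y) := f.continuous
  have hcont : Continuous (fun p => f (Psi R (vv 0) (ee 0) p) * Q (vv 0)) :=
    (hfc.comp (Psi R (vv 0) (ee 0)).continuous).mul continuous_const
  have hcs : HasCompactSupport (fun p => f (Psi R (vv 0) (ee 0) p) * Q (vv 0)) := by
    have h1 : HasCompactSupport (fun y => f y) := f.hasCompactSupport
    exact (h1.comp_isClosedEmbedding (Psi_isClosedEmbedding (R := R) 0)).mul_right
  have hint : Integrable (fun p => f (Psi R (vv 0) (ee 0) p) * Q (vv 0)) half :=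
    hcont.integrable_of_hasCompactSupport hcs
  rw [integral_pos_iff_support_of_nonneg (fun p => mul_nonneg (hf _) (Q_nonneg _)) hint]
  have hh : half = volume.restrict (Iio (0 : ℝ) ×ˢ (univ : Set (ℝ × ℝ))) := by
    unfold half
    rw [Measure.volume_eq_prod ℝ (ℝ × ℝ), ← Measure.prod_restrict, Measure.restrict_univ]
  have hopen : IsOpen (Function.support (fun p => f (Psi R (vv 0) (ee 0) p) * Q (vv 0))) :=
    hcont.isOpen_support
  rw [hh, Measure.restrict_apply hopen.measurableSet]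
  have hOo : IsOpen (Function.support (fun p => f (Psi R (vv 0) (ee 0) p) * Q (vv 0)) ∩
      Iio (0 : ℝ) ×ˢ (univ : Set (ℝ × ℝ))) := hopen.inter (isOpen_Iio.prod isOpen_univ)
  refine hOo.measure_pos volume ?_
  have hmem : (0 : ℝ × ℝ × ℝ) ∈
      Function.support (fun p => f (Psi R (vv 0) (ee 0) p) * Q (vv 0)) := by
    show f (Psi R (vv 0) (ee 0) 0) * Q (vv 0) ≠ 0
    rw [map_zero]
    refine mul_ne_zero h0 (Q_pos ?_).ne'
    intro h
    have := congrArg Prod.snd h
    simp [vv] at this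
  have hc : Continuous (fun t : ℝ => ((t, 0, 0) : ℝ × ℝ × ℝ)) := by fun_prop
  have h2 : ∀ᶠ t : ℝ in 𝓝 0, ((t, 0, 0) : ℝ × ℝ × ℝ) ∈
      Function.support (fun p => f (Psi R (vv 0) (ee 0) p) * Q (vv 0)) :=
    (hc.tendsto 0).eventually (hopen.mem_nhds hmem)
  obtain ⟨t, ht1, ht2⟩ := ((h2.filter_mono (nhdsWithin_le_nhds (s := Iio 0))).and
    self_mem_nhdsWithin).exists
  exact ⟨(t, 0, 0), ht1, ht2, trivial⟩

end

/-- smooth bump functions as test functions -/
theorem exists_bump [FiniteDimensional ℝ R] (U : Opens (Mfd R)) (O : Set (Mfd R))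
    (hO : IsOpen O) (hOU : O ⊆ U) (y : Mfd R) (hy : y ∈ O) :
    ∃ f : TestFunction U ℝ ⊤, (∀ z, 0 ≤ f z) ∧ f y ≠ 0 ∧ ∀ z, z ∉ O → f z = 0 := by
  obtain ⟨f, h1, h2, h3, h4, h5⟩ := exists_contDiff_tsupport_subset (n := ⊤) (hO.mem_nhds hy)
  refine ⟨⟨f, h3, h2, h1.trans hOU⟩, fun z => (h4 ⟨z, rfl⟩).1, ?_, fun z hz => ?_⟩
  · show f y ≠ 0
    rw [h5]; exact one_ne_zero
  · show f z = 0
    exact image_eq_zero_of_notMem_tsupport fun h => hz (h1 h)

/-- **Main theorem.** On `ℂ² × R` there is a `C`-cycle which is on no neighbourhood of the origin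
a superposition of pseudoholomorphic curves. -/
theorem main (R : Type) [NormedAddCommGroup R] [NormedSpace ℝ R] [FiniteDimensional ℝ R] :
    ∃ c : Current R (⊤ : Opens (Mfd R)) 2, IsCCurrent c ∧ IsCycle c ∧
      ∀ U : Opens (Mfd R), (0 : Mfd R) ∈ U → ¬ IsSuperposition c U := by
  borelize R
  refine ⟨trop R, isCCurrent_trop, isCycle_trop, ?_⟩
  rintro U h0U ⟨mS, ν, hν⟩
  -- positivity on curves
  have hnn : ∀ (f : TestFunction U ℝ ⊤), (∀ y, 0 ≤ f y) → ∀ c' : Curves U, 0 ≤ c'.1 (fw f) := by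
    rintro f hf ⟨c', S, h, r, -, -, -, -, χ, -, hc'⟩
    show 0 ≤ c' (fw f)
    rw [hc']
    exact integral_fw_nonneg χ h r f hf
  -- the complement of the support
  have hOo : IsOpen ((U : Set (Mfd R)) ∩ (Supp R)ᶜ) := U.isOpen.inter isClosed_Supp.isOpen_compl
  have hbump : ∀ y : Mfd R, ∃ f : TestFunction U ℝ ⊤, (∀ z, 0 ≤ f z) ∧
      (y ∈ (U : Set (Mfd R)) ∩ (Supp R)ᶜ → f y ≠ 0) ∧ ∀ z ∈ Supp R, f z = 0 := by
    intro y
    by_cases hy : y ∈ (U : Set (Mfd R)) ∩ (Supp R)ᶜ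
    · obtain ⟨f, h1, h2, h3⟩ := exists_bump U _ hOo inter_subset_left y hy
      exact ⟨f, h1, fun _ => h2, fun z hz => h3 z fun h => h.2 hz⟩
    · exact ⟨0, fun z => le_refl _, fun h => absurd h hy, fun z _ => rfl⟩
  choose F hF0 hF1 hF2 using hbump
  obtain ⟨t, -, htc, htU⟩ := TopologicalSpace.countable_cover_nhdsWithin
    (f := fun y => {z | F y z ≠ 0}) (s := (U : Set (Mfd R)) ∩ (Supp R)ᶜ) (fun y hy => by
      apply mem_nhdsWithin_of_mem_nhds
      have h1 : Continuous (fun z => F y z) := (F y).continuous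
      exact (h1.isOpen_support).mem_nhds (hF1 y hy))
  have hae : ∀ᵐ c' : Curves U ∂ν, ∀ y ∈ t, c'.1 (fw (F y)) = 0 := by
    rw [ae_ball_iff htc]
    intro y _
    have h1 := hν (fw (F y))
    rw [trop_fw_zero (F y) (hF2 y)] at h1
    exact (integral_eq_zero_iff_of_nonneg (fun c' => hnn _ (hF0 y) c') h1.1).1 h1.2.symm
  -- a ball
  obtain ⟨ρ, hρ, hρU⟩ := Metric.isOpen_iff.1 U.isOpen 0 h0U
  obtain ⟨f₀, hf1, hf2, hf3⟩ := exists_bump U (Metric.ball 0 ρ) Metric.isOpen_ball hρU 0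
    (Metric.mem_ball_self hρ)
  have hpos : 0 < ∫ c' : Curves U, c'.1 (fw f₀) ∂ν := by
    rw [← (hν (fw f₀)).2]
    exact trop_fw_pos f₀ hf1 hf2
  obtain ⟨c', hc'1, hc'2⟩ : ∃ c' : Curves U, (∀ y ∈ t, c'.1 (fw (F y)) = 0) ∧
      c'.1 (fw f₀) ≠ 0 := by
    by_contra hcon
    push Not at hcon
    have h1 : (fun c' : Curves U => c'.1 (fw f₀)) =ᵐ[ν] fun _ => (0 : ℝ) := by
      filter_upwards [hae] with c' hc' using hcon c' hc'
    rw [integral_congr_ae h1, MeasureTheory.integral_zero] at hpos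
    exact lt_irrefl _ hpos
  obtain ⟨S, h, r, hh, hU, hprop, ⟨p, hp1, -⟩, χ, hχ, hcur⟩ := c'.2
  have hnc : ∀ b, ¬ ∀ x, h x = b := by
    intro b hb
    apply hp1
    have : h = fun _ => b := funext hb
    rw [this]
    exact mfderiv_const
  -- the curve is contained in the support
  have hsupp : ∀ q, toLeaf h r q ∈ Supp R := by
    intro q
    by_contra hq
    have hqO : toLeaf h r q ∈ (U : Set (Mfd R)) ∩ (Supp R)ᶜ := ⟨hU q, hq⟩
    obtain ⟨y, hyt, hy⟩ := mem_iUnion₂.1 (htU hqO)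
    have h1 := integral_fw_pos χ hχ hh hnc r hprop (F y) (hF0 y) q hy
    rw [← hcur, hc'1 y hyt] at h1
    exact lt_irrefl _ h1
  -- the curve meets the ball
  obtain ⟨q, hq⟩ : ∃ q, f₀ (toLeaf h r q) ≠ 0 := by
    by_contra hcon
    push Not at hcon
    apply hc'2
    rw [hcur, integral_fw]
    have h1 : ∀ p : S.X, ∫ z in (chartAt ℂ p).target, igd χ h r f₀ p z = 0 := by
      intro p
      have h2 : ∀ z, igd χ h r f₀ p z = 0 := by
        intro z
        unfold igd
        rw [hcon]; ring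
      simp only [h2, MeasureTheory.integral_zero]
    simp only [h1, finsum_zero]
  have hqB : toLeaf h r q ∈ Metric.ball (0 : Mfd R) ρ := by
    by_contra hcon
    exact hq (hf3 _ hcon)
  have hr : r = 0 := (hsupp q).1
  have hnorm : ∀ x : ℂ × ℂ, ((x, (0 : R)) : Mfd R) ∈ Metric.ball (0 : Mfd R) ρ ↔
      x ∈ Metric.ball (0 : ℂ × ℂ) ρ := by
    intro x
    rw [mem_ball_zero_iff, mem_ball_zero_iff, Prod.norm_def]
    simp
  refine no_curve hh hnc (ρ := ρ) ?_ (fun q => (hsupp q).2) q ?_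
  · intro K hK hKc
    have h1 : IsCompact (K ×ˢ ({0} : Set R)) := hKc.prod isCompact_singleton
    have h2 : K ×ˢ ({0} : Set R) ⊆ (U : Set (Mfd R)) := by
      rintro ⟨x, s⟩ ⟨hx, hs⟩
      rw [mem_singleton_iff] at hs
      simp only at hs hx
      subst hs
      exact hρU ((hnorm x).2 (hK hx))
    have h3 := hprop _ h1 h2
    have h4 : toLeaf h r ⁻¹' (K ×ˢ ({0} : Set R)) = h ⁻¹' K := by
      ext x
      constructor
      · intro hx; exact hx.1
      · intro hx; exact ⟨hx, hr⟩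
    rwa [h4] at h3
  · rw [← hnorm]
    have : ((h q, (0 : R)) : Mfd R) = toLeaf h r q := by rw [hr]; rfl
    rw [this]
    exact hqB

end Pool.Agent.TH623.LC
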