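import Pool.Agent.TH623.LC.Trop

set_option autoImplicit false

open MeasureTheory TopologicalSpace Set
open scoped Manifold ContDiff Topology NNReal

namespace Pool.Agent.TH623.LC

theorem integral_half_x {G : ℝ × ℝ × ℝ → ℝ} (hG : ContDiff ℝ ∞ G) (hc : HasCompactSupport G) :
    ∫ p, fderiv ℝ G p (1, 0, 0) ∂half = ∫ q : ℝ × ℝ, G (0, q) := by
  have hcont : Continuous (fun p => fderiv ℝ G p (1, 0, 0)) :=
    (hG.continuous_fderiv (by simp)).clm_apply continuous_const
  have hcs : HasCompactSupport (fun p => fderiv ℝ G p (1, 0, 0)) :=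
    (hc.fderiv ℝ).comp_left (g := fun L : ℝ × ℝ × ℝ →L[ℝ] ℝ => L (1, 0, 0)) rfl
  have hint : Integrable (fun p => fderiv ℝ G p (1, 0, 0)) half :=
    hcont.integrable_of_hasCompactSupport hcs
  unfold half at hint ⊢
  rw [integral_prod_symm _ hint]
  congr 1
  funext q
  have hline : ContDiff ℝ 1 (fun x : ℝ => G (x, q)) :=
    (hG.comp (contDiff_id.prodMk contDiff_const)).of_le (by simp)
  have hemb : Topology.IsClosedEmbedding (fun x : ℝ => (x, q)) :=
    Topology.IsClosedEmbedding.of_continuous_injective_isClosedMap (by fun_prop)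
      (fun a b h => congrArg Prod.fst h) (fun s hs => by
        have : (fun x : ℝ => (x, q)) '' s = s ×ˢ {q} := by
          ext ⟨a, b⟩
          constructor
          · rintro ⟨x, hx, h⟩
            rw [← h]
            exact ⟨hx, rfl⟩
          · rintro ⟨h1, h2⟩
            exact ⟨a, h1, by rw [← (h2 : b = q)]⟩
        rw [this]
        exact hs.prod isClosed_singleton)
  have hlc : HasCompactSupport (fun x : ℝ => G (x, q)) := hc.comp_isClosedEmbedding hemb
  have h1 := hlc.integral_Iic_deriv_eq hline 0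
  rw [← h1, ← integral_Iic_eq_integral_Iio]
  congr 1
  funext x
  have h2 : HasDerivAt (fun x : ℝ => G (x, q)) (fderiv ℝ G (x, q) (1, 0, 0)) x := by
    have h3 : HasFDerivAt G (fderiv ℝ G (x, q)) (x, q) :=
      (hG.differentiable (by simp) _).hasFDerivAt
    have h4 : HasDerivAt (fun x : ℝ => (x, q)) ((1 : ℝ), (0 : ℝ × ℝ)) x :=
      (hasDerivAt_id x).prodMk (hasDerivAt_const x q)
    exact h3.comp_hasDerivAt x h4
  rw [h2.deriv]

theorem integral_half_y {G : ℝ × ℝ × ℝ → ℝ} (hG : ContDiff ℝ ∞ G) (hc : HasCompactSupport G) :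
    ∫ p, fderiv ℝ G p (0, 1, 0) ∂half = 0 := by
  have hcont : Continuous (fun p => fderiv ℝ G p (0, 1, 0)) :=
    (hG.continuous_fderiv (by simp)).clm_apply continuous_const
  have hcs : HasCompactSupport (fun p => fderiv ℝ G p (0, 1, 0)) :=
    (hc.fderiv ℝ).comp_left (g := fun L : ℝ × ℝ × ℝ →L[ℝ] ℝ => L (0, 1, 0)) rfl
  have hint : Integrable (fun p => fderiv ℝ G p (0, 1, 0)) half :=
    hcont.integrable_of_hasCompactSupport hcs
  unfold half at hint ⊢
  rw [integral_prod _ hint]
  have hzero : ∀ x : ℝ, ∫ q : ℝ × ℝ, fderiv ℝ G (x, q) (0, 1, 0) = 0 := by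
    intro x
    have hemb : Topology.IsClosedEmbedding (fun q : ℝ × ℝ => (x, q)) :=
      Topology.IsClosedEmbedding.of_continuous_injective_isClosedMap (by fun_prop)
        (fun a b h => congrArg Prod.snd h) (fun s hs => by
          have : (fun q : ℝ × ℝ => (x, q)) '' s = {x} ×ˢ s := by
            ext ⟨a, b⟩
            constructor
            · rintro ⟨y, hy, h⟩
              rw [← h]
              exact ⟨rfl, hy⟩
            · rintro ⟨h1, h2⟩
              exact ⟨b, h2, by rw [← (h1 : a = x)]⟩
          rw [this]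
          exact isClosed_singleton.prod hs)
    have hint2 : Integrable (fun q : ℝ × ℝ => fderiv ℝ G (x, q) (0, 1, 0)) :=
      (hcont.comp (by fun_prop)).integrable_of_hasCompactSupport
        (hcs.comp_isClosedEmbedding hemb)
    rw [Measure.volume_eq_prod] at hint2 ⊢
    rw [integral_prod_symm _ hint2]
    have hzero2 : ∀ s : ℝ, ∫ y : ℝ, fderiv ℝ G (x, y, s) (0, 1, 0) = 0 := by
      intro s
      have hline : ContDiff ℝ 1 (fun y : ℝ => G (x, y, s)) :=
        (hG.comp (contDiff_const.prodMk (contDiff_id.prodMk contDiff_const))).of_le (by simp)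
      have hemb2 : Topology.IsClosedEmbedding (fun y : ℝ => (x, y, s)) :=
        Topology.IsClosedEmbedding.of_continuous_injective_isClosedMap (by fun_prop)
          (fun a b h => congrArg (fun p : ℝ × ℝ × ℝ => p.2.1) h) (fun t ht => by
            have : (fun y : ℝ => (x, y, s)) '' t = {x} ×ˢ (t ×ˢ {s}) := by
              ext ⟨a, b, c⟩
              constructor
              · rintro ⟨y, hy, h⟩
                rw [← h]
                exact ⟨rfl, hy, rfl⟩
              · rintro ⟨h1, h2, h3⟩
                exact ⟨b, h2, by rw [← (h1 : a = x), ← (h3 : c = s)]⟩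
            rw [this]
            exact isClosed_singleton.prod (ht.prod isClosed_singleton))
      have hlc : HasCompactSupport (fun y : ℝ => G (x, y, s)) := hc.comp_isClosedEmbedding hemb2
      have hder : ∀ y : ℝ, deriv (fun y : ℝ => G (x, y, s)) y =
          fderiv ℝ G (x, y, s) (0, 1, 0) := by
        intro y
        have h3 : HasFDerivAt G (fderiv ℝ G (x, y, s)) (x, y, s) :=
          (hG.differentiable (by simp) _).hasFDerivAt
        have h4 : HasDerivAt (fun y : ℝ => (x, y, s)) ((0 : ℝ), (1 : ℝ), (0 : ℝ)) y :=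
          (hasDerivAt_const y x).prodMk ((hasDerivAt_id y).prodMk (hasDerivAt_const y s))
        exact (h3.comp_hasDerivAt y h4).deriv
      have h1 := hlc.integral_Iic_deriv_eq hline 0
      have h2 := hlc.integral_Ioi_deriv_eq hline 0
      have h5 : Integrable (fun y : ℝ => fderiv ℝ G (x, y, s) (0, 1, 0)) :=
        (hcont.comp (by fun_prop)).integrable_of_hasCompactSupport
          (hcs.comp_isClosedEmbedding hemb2)
      simp only [hder] at h1 h2
      rw [← intervalIntegral.integral_Iic_add_Ioi (b := 0) h5.integrableOn h5.integrableOn,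
        h1, h2]
      ring
    simp only [hzero2, integral_zero]
  simp only [hzero, integral_zero]

variable {R : Type} [NormedAddCommGroup R] [NormedSpace ℝ R]

/-- the value of the `1`-form `β` on `w` at the point `(i a, i b)` -/
noncomputable def bval (β : Form R (⊤ : Opens (Mfd R)) 1) (w : ℂ × ℂ) (q : ℝ × ℝ) : ℝ :=
  β (tang R (q.1 * Complex.I, q.2 * Complex.I)) ![tang R w]

theorem bval_emb : Topology.IsClosedEmbedding
    (fun q : ℝ × ℝ => tang R ((q.1 : ℂ) * Complex.I, (q.2 : ℂ) * Complex.I)) := by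
  let L : ℝ × ℝ →L[ℝ] Mfd R :=
    (ContinuousLinearMap.fst ℝ ℝ ℝ).smulRight (tang R (Complex.I, 0)) +
    (ContinuousLinearMap.snd ℝ ℝ ℝ).smulRight (tang R (0, Complex.I))
  have hL : (fun q : ℝ × ℝ => tang R ((q.1 : ℂ) * Complex.I, (q.2 : ℂ) * Complex.I)) = L := by
    funext q
    show _ = q.1 • tang R (Complex.I, 0) + q.2 • tang R (0, Complex.I)
    simp [tang]
  rw [hL]
  apply LinearMap.isClosedEmbedding_of_injective (f := L.toLinearMap)
  rw [LinearMap.ker_eq_bot]
  show Function.Injective L
  rw [← hL]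
  intro q q' h
  have h1 := congrArg (fun x : Mfd R => x.1.1.im) h
  have h2 := congrArg (fun x : Mfd R => x.1.2.im) h
  simp [tang] at h1 h2
  exact Prod.ext h1 h2

theorem bval_continuous (β : Form R (⊤ : Opens (Mfd R)) 1) (w : ℂ × ℂ) :
    Continuous (bval β w) := by
  have h1 : Continuous (fun y => β y) := β.continuous
  exact (ContinuousAlternatingMap.apply ℝ (Mfd R) ℝ ![tang R w]).continuous.comp
    (h1.comp bval_emb.continuous)

theorem bval_compact (β : Form R (⊤ : Opens (Mfd R)) 1) (w : ℂ × ℂ) :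
    HasCompactSupport (bval β w) := by
  have h1 : HasCompactSupport (fun y => β y) := β.hasCompactSupport
  have h2 := h1.comp_isClosedEmbedding (bval_emb (R := R))
  exact h2.comp_left (g := fun c : Mfd R [⋀^Fin 1]→L[ℝ] ℝ => c ![tang R w]) rfl

theorem bval_integrable (β : Form R (⊤ : Opens (Mfd R)) 1) (w : ℂ × ℂ) :
    Integrable (bval β w) :=
  (bval_continuous β w).integrable_of_hasCompactSupport (bval_compact β w)

theorem piece (k : Fin 3) (β : Form R (⊤ : Opens (Mfd R)) 1)
    (α : Form R (⊤ : Opens (Mfd R)) 2) (h : ∀ y, α y = extDeriv (fun z => β z) y) :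
    ∫ p, dirac (Psi R (vv k) (ee k) p) (vv k) α ∂half =
      ∫ q : ℝ × ℝ, coef k β (tang R (Complex.I • vv k)) (0, q) := by
  have h1 : ∀ p, dirac (Psi R (vv k) (ee k) p) (vv k) α =
      fderiv ℝ (coef k β (tang R (Complex.I • vv k))) p (1, 0, 0) -
      fderiv ℝ (coef k β (tang R (vv k))) p (0, 1, 0) := dirac_extDeriv k β α h
  have hint : ∀ (w : Mfd R) (t : ℝ × ℝ × ℝ),
      Integrable (fun p => fderiv ℝ (coef k β w) p t) half := by
    intro w t
    have hcont : Continuous (fun p => fderiv ℝ (coef k β w) p t) :=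
      ((coef_contDiff k β w).continuous_fderiv (by simp)).clm_apply continuous_const
    exact hcont.integrable_of_hasCompactSupport
      (((coef_compact k β w).fderiv ℝ).comp_left (g := fun L : ℝ × ℝ × ℝ →L[ℝ] ℝ => L t) rfl)
  simp only [h1]
  rw [integral_sub (hint _ _) (hint _ _), integral_half_x (coef_contDiff k β _)
    (coef_compact k β _), integral_half_y (coef_contDiff k β _) (coef_compact k β _), sub_zero]

theorem isCycle_trop [MeasurableSpace R] [BorelSpace R] [FiniteDimensional ℝ R] :
    IsCycle (trop R) := by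
  intro β α h
  rw [trop_apply']
  simp only [piece _ β α h, Fin.sum_univ_three]
  have e0 : ∀ q : ℝ × ℝ, coef 0 β (tang R (Complex.I • vv 0)) (0, q) =
      bval β (0, Complex.I) q.swap := by
    intro q
    unfold coef bval
    rw [Psi_apply]
    congr 1
    · congr 1
      simp [vv, ee, tang]
    · simp [vv]
  have e1 : ∀ q : ℝ × ℝ, coef 1 β (tang R (Complex.I • vv 1)) (0, q) =
      bval β (Complex.I, 0) q := by
    intro q
    unfold coef bval
    rw [Psi_apply]
    congr 1
    · congr 1
      simp [vv, ee, tang]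
    · simp [vv]
  have e2 : ∀ q : ℝ × ℝ, coef 2 β (tang R (Complex.I • vv 2)) (0, q) =
      -(bval β (0, Complex.I) (-q.1, -q.1 - q.2) + bval β (Complex.I, 0) (-q.1, -q.1 - q.2)) := by
    intro q
    unfold coef bval
    rw [Psi_apply]
    have h1 : (0 : ℝ × ℝ × ℝ).1 • tang R (vv 2) = 0 := by simp
    have h2 : (((0 : ℝ), q) : ℝ × ℝ × ℝ).1 • tang R (vv 2) +
        (((0 : ℝ), q) : ℝ × ℝ × ℝ).2.1 • tang R (Complex.I • vv 2) +
        (((0 : ℝ), q) : ℝ × ℝ × ℝ).2.2 • tang R (ee 2) =
        tang R ((((-q.1, -q.1 - q.2) : ℝ × ℝ).1 : ℂ) * Complex.I,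
          (((-q.1, -q.1 - q.2) : ℝ × ℝ).2 : ℂ) * Complex.I) := by
      simp [vv, ee, tang]
      ring
    rw [h2]
    have h3 : tang R (Complex.I • vv 2) = -(tang R (0, Complex.I) + tang R (Complex.I, 0)) := by
      simp [vv, tang]
    rw [h3]
    generalize β (tang R ((((-q.1, -q.1 - q.2) : ℝ × ℝ).1 : ℂ) * Complex.I,
          (((-q.1, -q.1 - q.2) : ℝ × ℝ).2 : ℂ) * Complex.I)) = f
    have h4 : ∀ a b : Mfd R, f ![-(a + b)] = -(f ![a] + f ![b]) := by
      intro a b
      have h5 : ∀ w : Mfd R, ![w] = Function.update ![(0 : Mfd R)] 0 w := by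
        intro w; funext i; fin_cases i; simp
      rw [h5 (-(a + b)), h5 a, h5 b, ← neg_one_smul ℝ (a + b), f.map_update_smul,
        f.map_update_add]
      simp
    exact h4 _ _
  simp only [e0, e1, e2]
  have i0 : ∫ q : ℝ × ℝ, bval β (0, Complex.I) q.swap = ∫ q : ℝ × ℝ, bval β (0, Complex.I) q := by
    rw [Measure.volume_eq_prod]
    exact integral_prod_swap _
  have i2 : ∫ q : ℝ × ℝ, -(bval β (0, Complex.I) (-q.1, -q.1 - q.2) +
      bval β (Complex.I, 0) (-q.1, -q.1 - q.2)) =
      -(∫ q : ℝ × ℝ, bval β (0, Complex.I) q) - ∫ q : ℝ × ℝ, bval β (Complex.I, 0) q := by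
    have key : ∀ w : ℂ × ℂ, Integrable (fun q : ℝ × ℝ => bval β w (-q.1, -q.1 - q.2)) ∧
        ∫ q : ℝ × ℝ, bval β w (-q.1, -q.1 - q.2) = ∫ q : ℝ × ℝ, bval β w q := by
      intro w
      have hemb : Topology.IsClosedEmbedding (fun q : ℝ × ℝ => (-q.1, -q.1 - q.2)) := by
        let H : ℝ × ℝ ≃ₜ ℝ × ℝ :=
          { toFun := fun q => (-q.1, -q.1 - q.2)
            invFun := fun q => (-q.1, q.1 - q.2)
            left_inv := fun q => by ext <;> simp
            right_inv := fun q => by ext <;> simp
            continuous_toFun := by fun_prop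
            continuous_invFun := by fun_prop }
        exact H.isClosedEmbedding
      have hint : Integrable (fun q : ℝ × ℝ => bval β w (-q.1, -q.1 - q.2)) :=
        ((bval_continuous β w).comp hemb.continuous).integrable_of_hasCompactSupport
          ((bval_compact β w).comp_isClosedEmbedding hemb)
      refine ⟨hint, ?_⟩
      have hint' := bval_integrable β w
      rw [Measure.volume_eq_prod] at hint hint' ⊢
      rw [integral_prod _ hint, integral_prod _ hint']
      have h1 : ∀ y : ℝ, ∫ s : ℝ, bval β w (-y, -y - s) = ∫ s : ℝ, bval β w (-y, s) :=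
        fun y => integral_sub_left_eq_self (fun s => bval β w (-y, s)) volume (-y)
      simp only [h1]
      exact integral_neg_eq_self (fun y : ℝ => ∫ s : ℝ, bval β w (y, s)) volume
    rw [integral_neg, integral_add (key _).1 (key _).1, (key _).2, (key _).2]
    ring
  rw [i0, i2]
  ring

end Pool.Agent.TH623.LC
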