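import Pool.Agent.TH623.LC.Cone

set_option autoImplicit false

open MeasureTheory TopologicalSpace Set
open scoped Manifold ContDiff Topology NNReal

namespace Pool.Agent.TH623.LC

variable {R : Type} [NormedAddCommGroup R] [NormedSpace ℝ R]

/-- the parametrisation `(x, y, s) ↦ x v + y i v + s e` of a real hyperplane of `ℂ²` -/
noncomputable def Psi (R : Type) [NormedAddCommGroup R] [NormedSpace ℝ R] (v e : ℂ × ℂ) :
    ℝ × ℝ × ℝ →L[ℝ] Mfd R :=
  (ContinuousLinearMap.fst ℝ ℝ (ℝ × ℝ)).smulRight (tang R v) +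
  ((ContinuousLinearMap.fst ℝ ℝ ℝ).comp (ContinuousLinearMap.snd ℝ ℝ (ℝ × ℝ))).smulRight
    (tang R (Complex.I • v)) +
  ((ContinuousLinearMap.snd ℝ ℝ ℝ).comp (ContinuousLinearMap.snd ℝ ℝ (ℝ × ℝ))).smulRight
    (tang R e)

theorem Psi_apply (v e : ℂ × ℂ) (p : ℝ × ℝ × ℝ) :
    Psi R v e p = p.1 • tang R v + p.2.1 • tang R (Complex.I • v) + p.2.2 • tang R e := rfl

/-- the three pieces -/
def vv : Fin 3 → ℂ × ℂ := ![(0, 1), (1, 0), (-1, -1)]

/-- the transverse directions of the three pieces -/
noncomputable def ee : Fin 3 → ℂ × ℂ := ![(Complex.I, 0), (0, Complex.I), (0, -Complex.I)]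

theorem tang_fst (v : ℂ × ℂ) : (tang R v).1 = v := rfl

theorem Psi_injective (k : Fin 3) : Function.Injective (Psi R (vv k) (ee k)) := by
  rw [injective_iff_map_eq_zero]
  rintro ⟨x, y, s⟩ h
  rw [Psi_apply] at h
  have h1 := congrArg (fun q : Mfd R => q.1) h
  fin_cases k
  · simp [vv, ee, tang] at h1
    obtain ⟨h2, h3⟩ := h1
    have h4 := congrArg Complex.re h3
    have h5 := congrArg Complex.im h3
    simp at h4 h5
    simp [h2, h4, h5]
  · simp [vv, ee, tang] at h1
    obtain ⟨h3, h2⟩ := h1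
    have h4 := congrArg Complex.re h3
    have h5 := congrArg Complex.im h3
    simp at h4 h5
    simp [h2, h4, h5]
  · simp [vv, ee, tang] at h1
    obtain ⟨h3, h2⟩ := h1
    have h4 := congrArg Complex.re h3
    have h5 := congrArg Complex.im h3
    have h6 := congrArg Complex.im h2
    simp at h4 h5 h6
    have h7 : y = 0 := by linarith
    have h8 : s = 0 := by linarith
    have h9 : x = 0 := by linarith
    simp [h7, h8, h9]

theorem Psi_isClosedEmbedding (k : Fin 3) :
    Topology.IsClosedEmbedding (Psi R (vv k) (ee k)) := by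
  apply LinearMap.isClosedEmbedding_of_injective (f := (Psi R (vv k) (ee k)).toLinearMap)
  rw [LinearMap.ker_eq_bot]
  exact Psi_injective k

section Measure

variable [MeasurableSpace R] [BorelSpace R]

/-- Lebesgue measure on the half space `x < 0` -/
noncomputable def half : Measure (ℝ × ℝ × ℝ) := (volume.restrict (Iio (0 : ℝ))).prod volume

/-- the measure of the `k`-th piece -/
noncomputable def mu (R : Type) [NormedAddCommGroup R] [NormedSpace ℝ R] [MeasurableSpace R]
    (k : Fin 3) : Measure (Mfd R) := half.map (Psi R (vv k) (ee k))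

instance : SFinite half := by unfold half; infer_instance

theorem half_le : half ≤ volume := by
  have h : half = volume.restrict (Iio (0 : ℝ) ×ˢ (univ : Set (ℝ × ℝ))) := by
    unfold half
    rw [Measure.volume_eq_prod ℝ (ℝ × ℝ), ← Measure.prod_restrict, Measure.restrict_univ]
  rw [h]
  exact Measure.restrict_le_self

instance : IsFiniteMeasureOnCompacts half :=
  ⟨fun _ hK => (half_le _).trans_lt hK.measure_lt_top⟩

instance [FiniteDimensional ℝ R] (k : Fin 3) : IsFiniteMeasureOnCompacts (mu R k) := by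
  refine ⟨fun K hK => ?_⟩
  unfold mu
  rw [Measure.map_apply (Psi R (vv k) (ee k)).continuous.measurable hK.measurableSet]
  exact ((Psi_isClosedEmbedding k).isCompact_preimage hK).measure_lt_top

variable [FiniteDimensional ℝ R]

/-- The current of the example, the sum of the three pieces. -/
noncomputable def trop (R : Type) [NormedAddCommGroup R] [NormedSpace ℝ R] [MeasurableSpace R]
    [BorelSpace R] [FiniteDimensional ℝ R] : Current R (⊤ : Opens (Mfd R)) 2 :=
  ∑ k : Fin 3, TestFunction.integralAgainstBilinCLM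
    ((ContinuousLinearMap.mul ℝ ℝ).comp (ContinuousAlternatingMap.apply ℝ (Mfd R) ℝ
      ![tang R (vv k), tang R (Complex.I • vv k)])) (mu R k) (fun _ => (1 : ℝ))

theorem locInt (k : Fin 3) (S : Set (Mfd R)) :
    LocallyIntegrableOn (fun _ : Mfd R => (1 : ℝ)) S (mu R k) := by
  have : IsLocallyFiniteMeasure (mu R k) := isLocallyFiniteMeasure_of_isFiniteMeasureOnCompacts
  exact (continuous_const.locallyIntegrable).locallyIntegrableOn S

theorem trop_apply (α : Form R (⊤ : Opens (Mfd R)) 2) :
    trop R α = ∑ k : Fin 3, ∫ y, dirac y (vv k) α ∂(mu R k) := by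
  unfold trop
  rw [sum_apply]
  refine Finset.sum_congr rfl fun k _ => ?_
  rw [TestFunction.integralAgainstBilinCLM_eq_integral (locInt k _)]
  congr 1
  funext y
  simp [dirac]

theorem trop_apply' (α : Form R (⊤ : Opens (Mfd R)) 2) :
    trop R α = ∑ k : Fin 3, ∫ p, dirac (Psi R (vv k) (ee k) p) (vv k) α ∂half := by
  rw [trop_apply]
  refine Finset.sum_congr rfl fun k _ => ?_
  unfold mu
  rw [integral_map (Psi R (vv k) (ee k)).continuous.measurable.aemeasurable]
  have h1 : Continuous (fun y => α y) := α.continuous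
  exact ((ContinuousAlternatingMap.apply ℝ (Mfd R) ℝ _).continuous.comp h1).aestronglyMeasurable

theorem isCCurrent_trop : IsCCurrent (trop R) := by
  have h1 : (fun α => trop R α) = ∑ k : Fin 3, fun α : Form R (⊤ : Opens (Mfd R)) 2 =>
      ∫ y, dirac y (vv k) α ∂(mu R k) := by
    funext α
    rw [trop_apply, Finset.sum_apply]
  unfold IsCCurrent
  rw [h1]
  have h2 : ∑ k : Fin 3, (fun α : Form R (⊤ : Opens (Mfd R)) 2 =>
      ∫ y, dirac y (vv k) α ∂(mu R k)) ∈ (diracCone (⊤ : Opens (Mfd R))).topologicalClosure :=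
    Submodule.sum_mem _ fun k _ => integral_mem_closure (mu R k) (vv k)
  exact h2

end Measure

/-! ### The boundary of the pieces -/

/-- a coefficient of a `1`-form, in the coordinates of a piece -/
noncomputable def coef (k : Fin 3) (β : Form R (⊤ : Opens (Mfd R)) 1) (w : Mfd R)
    (p : ℝ × ℝ × ℝ) : ℝ := β (Psi R (vv k) (ee k) p) ![w]

theorem coef_contDiff (k : Fin 3) (β : Form R (⊤ : Opens (Mfd R)) 1) (w : Mfd R) :
    ContDiff ℝ ∞ (coef k β w) := by
  have h1 : ContDiff ℝ ∞ (fun y => β y) := β.contDiff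
  exact (ContinuousAlternatingMap.apply ℝ (Mfd R) ℝ ![w]).contDiff.comp
    (h1.comp (Psi R (vv k) (ee k)).contDiff)

theorem coef_compact (k : Fin 3) (β : Form R (⊤ : Opens (Mfd R)) 1) (w : Mfd R) :
    HasCompactSupport (coef k β w) := by
  have h1 : HasCompactSupport (fun y => β y) := β.hasCompactSupport
  have h2 := h1.comp_isClosedEmbedding (Psi_isClosedEmbedding (R := R) k)
  exact h2.comp_left (g := fun c : Mfd R [⋀^Fin 1]→L[ℝ] ℝ => c ![w]) rfl

theorem dirac_extDeriv (k : Fin 3) (β : Form R (⊤ : Opens (Mfd R)) 1)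
    (α : Form R (⊤ : Opens (Mfd R)) 2) (h : ∀ y, α y = extDeriv (fun z => β z) y)
    (p : ℝ × ℝ × ℝ) :
    dirac (Psi R (vv k) (ee k) p) (vv k) α =
      fderiv ℝ (coef k β (tang R (Complex.I • vv k))) p (1, 0, 0) -
      fderiv ℝ (coef k β (tang R (vv k))) p (0, 1, 0) := by
  have h1 : ContDiff ℝ ∞ (fun y => β y) := β.contDiff
  have hd : Differentiable ℝ (fun y => β y) := h1.differentiable (by simp)
  have h2 : ∀ (w : Mfd R) (t : ℝ × ℝ × ℝ), fderiv ℝ (coef k β w) p t =
      fderiv ℝ (fun y => β y ![w]) (Psi R (vv k) (ee k) p) (Psi R (vv k) (ee k) t) := by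
    intro w t
    have h3 : Differentiable ℝ (fun y => β y ![w]) :=
      (ContinuousAlternatingMap.apply ℝ (Mfd R) ℝ ![w]).differentiable.comp hd
    have h4 : coef k β w = (fun y => β y ![w]) ∘ (Psi R (vv k) (ee k)) := rfl
    rw [h4, fderiv_comp p (h3 _) (Psi R (vv k) (ee k)).differentiableAt,
      ContinuousLinearMap.fderiv]
    rfl
  unfold dirac
  rw [h, extDeriv_apply (hd _), h2, h2, Fin.sum_univ_two]
  have e1 : Psi R (vv k) (ee k) (1, 0, 0) = tang R (vv k) := by simp [Psi_apply]
  have e2 : Psi R (vv k) (ee k) (0, 1, 0) = tang R (Complex.I • vv k) := by simp [Psi_apply]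
  rw [e1, e2]
  have r0 : (0 : Fin 2).removeNth ![tang R (vv k), tang R (Complex.I • vv k)] =
      ![tang R (Complex.I • vv k)] := by
    funext i; fin_cases i; rfl
  have r1 : (1 : Fin 2).removeNth ![tang R (vv k), tang R (Complex.I • vv k)] =
      ![tang R (vv k)] := by
    funext i; fin_cases i; rfl
  rw [r0, r1]
  simp
  ring

end Pool.Agent.TH623.LC
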